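import Mathlib

set_option autoImplicit false

namespace Pool.Agent.H.MP_9098dd_gt

open Set

universe u

/-- the family belongs to D_Omega. -/
def DOm {X : Type u} [TopologicalSpace X] (𝒰 : Set (Set X)) : Prop :=
  (∀ U ∈ 𝒰, IsOpen U) ∧ Dense (⋃₀ 𝒰) ∧ (∀ U ∈ 𝒰, ¬ Dense U) ∧
    ∀ ℱ : Set (Set X), ℱ.Finite → (∀ F ∈ ℱ, IsOpen F ∧ F.Nonempty) →
      ∃ U ∈ 𝒰, ∀ F ∈ ℱ, (U ∩ F).Nonempty

/-- free Suslin trees. -/
def FreeSuslin (T : Type u) [PartialOrder T] : Prop :=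
  WellFoundedLT T ∧ (∀ t : T, IsChain (· ≤ ·) (Iic t)) ∧ Uncountable T ∧
    (∀ C : Set T, IsChain (· ≤ ·) C → C.Countable) ∧
    (∀ A : Set T, IsAntichain (· ≤ ·) A → A.Countable) ∧
    ∀ (n : ℕ) (t : Fin n → T), (Pairwise fun i j => ¬ t i ≤ t j) →
      ∀ A : Set (Fin n → T), (∀ a ∈ A, t ≤ a) →
        (A.Pairwise fun a b => ∃ i, ¬ a i ≤ b i ∧ ¬ b i ≤ a i) → A.Countable

/-- small sets. -/
def Sm (b : Bool) {α : Type u} (s : Set α) : Prop := cond b s.Subsingleton s.Finite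

theorem Sm.img {b : Bool} {α β : Type u} (f : α → β) {s : Set α} (h : Sm b s) : Sm b (f '' s) := by
  cases b
  · exact Set.Finite.image f h
  · exact Set.Subsingleton.image h f

theorem Sm.cnt {b : Bool} {α : Type u} {s : Set α} (h : Sm b s) : s.Countable := by
  cases b
  · exact Set.Finite.countable h
  · exact (Set.Subsingleton.finite h).countable

theorem Sm.sing (b : Bool) {α : Type u} (a : α) : Sm b ({a} : Set α) := by
  cases b
  · exact finite_singleton a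
  · exact subsingleton_singleton

theorem Sm.emp (b : Bool) {α : Type u} : Sm b (∅ : Set α) := by
  cases b
  · exact finite_empty
  · exact subsingleton_empty

/-- the selection principle. -/
def SS (b : Bool) (X : Type u) [TopologicalSpace X] : Prop :=
  ∀ 𝒰 : ℕ → Set (Set X), (∀ n, DOm (𝒰 n)) →
    ∃ F : ℕ → Set (Set X), (∀ n, Sm b (F n) ∧ F n ⊆ 𝒰 n) ∧ DOm (⋃ n, F n)

variable {X : Type u} [TopologicalSpace X]

/-- tuples of nonempty open sets. -/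
def Box {ι : Type} (W : ι → Set X) : Prop := ∀ i, IsOpen (W i) ∧ (W i).Nonempty

/-- separated tuples. -/
def Good {ι : Type} (R : ι → Set X) : Prop :=
  ∀ i j, i ≠ j → Disjoint (R i) (R j) ∨ IsPreirreducible (R i)

theorem dom_of {𝒰 : Set (Set X)} (h1 : ∀ U ∈ 𝒰, IsOpen U ∧ ¬ Dense U)
    (h2 : ∀ (r : ℕ) (W : Fin r → Set X), Box W → ∃ U ∈ 𝒰, ∀ j, (U ∩ W j).Nonempty) : DOm 𝒰 := by
  refine ⟨fun U hU => (h1 U hU).1, dense_iff_inter_open.mpr fun W hW hW' => ?_,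
    fun U hU => (h1 U hU).2, fun ℱ hℱ h => ?_⟩
  · obtain ⟨U, hU, h⟩ := h2 1 (fun _ => W) fun _ => ⟨hW, hW'⟩
    obtain ⟨x, hx, hx'⟩ := h 0
    exact ⟨x, hx', U, hU, hx⟩
  · obtain ⟨r, f, _, rfl⟩ := hℱ.fin_param
    obtain ⟨U, hU, h'⟩ := h2 r f fun j => h _ ⟨j, rfl⟩
    exact ⟨U, hU, by rintro _ ⟨j, rfl⟩; exact h' j⟩

theorem DOm.ex {𝒰 : Set (Set X)} (h : DOm 𝒰) {ι : Type} [Finite ι] {W : ι → Set X} (hW : Box W) :
    ∃ U ∈ 𝒰, ∀ j, (U ∩ W j).Nonempty := by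
  obtain ⟨U, hU, h'⟩ := h.2.2.2 (range W) (finite_range W) (by rintro _ ⟨j, rfl⟩; exact hW j)
  exact ⟨U, hU, fun j => h' _ ⟨j, rfl⟩⟩

theorem decide_box {ι : Type} (R : ι → Set X) (hR : ∀ i, IsOpen (R i)) (S : Finset ι)
    {F : Set X} (h1 : IsOpen F) (h2 : F.Nonempty) :
    ∃ G, IsOpen G ∧ G.Nonempty ∧ G ⊆ F ∧ ∀ i ∈ S, G ⊆ R i ∨ Disjoint G (R i) := by
  classical
  induction S using Finset.induction_on with
  | empty => exact ⟨F, h1, h2, Subset.rfl, fun i hi => by simp at hi⟩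
  | insert a S _ ih =>
    obtain ⟨G, h3, h4, h5, h6⟩ := ih
    by_cases h : (G ∩ R a).Nonempty
    · refine ⟨G ∩ R a, h3.inter (hR a), h, inter_subset_left.trans h5, fun i hi => ?_⟩
      rcases Finset.mem_insert.mp hi with rfl | hi
      · exact Or.inl inter_subset_right
      · exact (h6 i hi).imp (inter_subset_left.trans ·) (·.mono_left inter_subset_left)
    · refine ⟨G, h3, h4, h5, fun i hi => ?_⟩
      rcases Finset.mem_insert.mp hi with rfl | hi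
      · exact Or.inr (disjoint_iff_inter_eq_empty.mpr (not_nonempty_iff_eq_empty.mp h))
      · exact h6 i hi

theorem merge {ι : Type} [Finite ι] {R : ι → Set X} (hg : Good R) {J : Type} {G : J → Set X}
    (hG : Box G) (φ : ι → J) (hφ : ∀ i, G (φ i) ⊆ R i) {V : ι → Set X} (hV : Box V)
    (hVG : ∀ i, V i ⊆ G (φ i)) :
    ∃ G' : J → Set X, Box G' ∧ (∀ j, G' j ⊆ G j) ∧ ∀ i, G' (φ i) ⊆ V i := by
  classical
  refine ⟨fun j => G j ∩ ⋂ i ∈ {i | φ i = j}, V i, fun j => ⟨(hG j).1.inter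
    ((toFinite _).isOpen_biInter fun i _ => (hV i).1), ?_⟩, fun j => inter_subset_left,
    fun i x hx => mem_iInter₂.mp hx.2 i rfl⟩
  by_cases h : ∃ i i', i ≠ i' ∧ φ i = j ∧ φ i' = j
  · obtain ⟨i, i', h1, h2, h3⟩ := h
    have h4 : IsPreirreducible (R i) := (hg i i' h1).resolve_left fun hd => by
      obtain ⟨x, hx⟩ := (hG j).2
      exact disjoint_left.mp hd (hφ i (h2 ▸ hx)) (hφ i' (h3 ▸ hx))
    have h5 : IsIrreducible (G j) := ⟨(hG j).2, h4.open_subset (hG j).1 (h2 ▸ hφ i)⟩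
    obtain ⟨x, hx, hx'⟩ := isIrreducible_iff_sInter.mp h5
      ((toFinite (V '' {i | φ i = j})).toFinset) (by
        intro w hw
        obtain ⟨l, _, rfl⟩ := (Set.Finite.mem_toFinset _).mp hw
        exact (hV l).1) (by
        intro w hw
        obtain ⟨l, hl, rfl⟩ := (Set.Finite.mem_toFinset _).mp hw
        obtain ⟨x, hx⟩ := (hV l).2
        exact ⟨x, hl ▸ hVG l hx, hx⟩)
    exact ⟨x, hx, mem_iInter₂.mpr fun l hl => hx' _ (by simpa using ⟨l, hl, rfl⟩)⟩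
  · by_cases h' : ∃ i, φ i = j
    · obtain ⟨i, hi⟩ := h'
      obtain ⟨x, hx⟩ := (hV i).2
      refine ⟨x, hi ▸ hVG i hx, mem_iInter₂.mpr fun l hl => ?_⟩
      by_cases hli : l = i
      · exact hli ▸ hx
      · exact absurd ⟨l, i, hli, hl, hi⟩ h
    · obtain ⟨x, hx⟩ := (hG j).2
      exact ⟨x, hx, mem_iInter₂.mpr fun l hl => absurd ⟨l, hl⟩ h'⟩

theorem loc {b : Bool} (h : SS b X) {ι : Type} [Finite ι] {R : ι → Set X} (hR : Box R)
    (hg : Good R) {A : Type u} (E : A → Set (ι → X)) (𝒰 : ℕ → Set A)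
    (hd : ∀ n W, Box W → (∀ i, W i ⊆ R i) →
      ∃ a ∈ 𝒰 n, ∃ V, Box V ∧ (∀ i, V i ⊆ W i) ∧ univ.pi V ⊆ E a) :
    ∃ F : ℕ → Set A, (∀ n, Sm b (F n) ∧ F n ⊆ 𝒰 n) ∧
      ∀ W, Box W → (∀ i, W i ⊆ R i) → ∃ n, ∃ a ∈ F n, (E a ∩ univ.pi W).Nonempty := by
  classical
  have := Fintype.ofFinite ι
  have hne : ∀ n, ∃ a, a ∈ 𝒰 n := fun n => by
    obtain ⟨a, ha, _⟩ := hd n R hR fun _ => Subset.rfl
    exact ⟨a, ha⟩
  let P : ℕ → Set X → (ℕ → A) → Prop := fun p V w => (∀ q, w q ∈ 𝒰 (Nat.pair p q)) ∧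
    ∀ W, Box W → (∀ i, W i ⊆ R i) → (∀ i, (V ∩ W i).Nonempty) →
      ∃ q, (E (w q) ∩ univ.pi W).Nonempty
  have claim : ∀ p r (W : Fin r → Set X), Box W →
      ∃ V, (IsOpen V ∧ ∃ w, P p V w) ∧ ∀ j, (V ∩ W j).Nonempty := by
    intro p r W hW
    choose G hG1 hG2 hG3 hG4 using fun j =>
      decide_box R (fun i => (hR i).1) Finset.univ (hW j).1 (hW j).2
    obtain ⟨e, he⟩ := exists_injective_nat (ι → Fin r)
    have h1 : ∀ S : Finset (ι → Fin r), ∃ G' : Fin r → Set X, Box G' ∧ (∀ j, G' j ⊆ G j) ∧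
        ∀ φ ∈ S, (∀ i, G (φ i) ⊆ R i) →
          ∃ a ∈ 𝒰 (Nat.pair p (e φ)), univ.pi (fun i => G' (φ i)) ⊆ E a := by
      intro S
      induction S using Finset.induction_on with
      | empty => exact ⟨G, fun j => ⟨hG1 j, hG2 j⟩, fun _ => Subset.rfl, fun φ h => by simp at h⟩
      | insert ψ S _ ih =>
        obtain ⟨G', h2, h3, h4⟩ := ih
        by_cases hv : ∀ i, G (ψ i) ⊆ R i
        · obtain ⟨a, ha, V, hV1, hV2, hV3⟩ := hd (Nat.pair p (e ψ)) (fun i => G' (ψ i))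
            (fun i => h2 _) fun i => (h3 _).trans (hv i)
          obtain ⟨G'', h5, h6, h7⟩ := merge hg h2 ψ (fun i => (h3 _).trans (hv i)) hV1 hV2
          refine ⟨G'', h5, fun j => (h6 j).trans (h3 j), fun φ hφ hφ' => ?_⟩
          rcases Finset.mem_insert.mp hφ with rfl | hφ
          · exact ⟨a, ha, (pi_mono fun i _ => h7 i).trans hV3⟩
          · obtain ⟨a', ha', h8⟩ := h4 φ hφ hφ'
            exact ⟨a', ha', (pi_mono fun i _ => h6 _).trans h8⟩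
        · refine ⟨G', h2, h3, fun φ hφ hφ' => ?_⟩
          rcases Finset.mem_insert.mp hφ with rfl | hφ
          · exact absurd hφ' hv
          · exact h4 φ hφ hφ'
    obtain ⟨G', h2, h3, h4⟩ := h1 Finset.univ
    have h5 : ∀ q, ∃ a ∈ 𝒰 (Nat.pair p q), ∀ φ, e φ = q → (∀ i, G (φ i) ⊆ R i) →
        univ.pi (fun i => G' (φ i)) ⊆ E a := by
      intro q
      by_cases hq : ∃ φ, e φ = q ∧ ∀ i, G (φ i) ⊆ R i
      · obtain ⟨φ, rfl, hφ⟩ := hq
        obtain ⟨a, ha, h6⟩ := h4 φ (Finset.mem_univ _) hφ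
        exact ⟨a, ha, fun φ' h7 _ => he h7 ▸ h6⟩
      · obtain ⟨a, ha⟩ := hne (Nat.pair p q)
        exact ⟨a, ha, fun φ h7 h8 => absurd ⟨φ, h7, h8⟩ hq⟩
    choose w hw1 hw2 using h5
    refine ⟨⋃ j, G' j, ⟨isOpen_iUnion fun j => (h2 j).1, w, hw1, fun W' _ hW2 hW3 => ?_⟩,
      fun j => ?_⟩
    · have h6 : ∀ i, ∃ j x, x ∈ G' j ∧ x ∈ W' i := fun i => by
        obtain ⟨x, hx, hx'⟩ := hW3 i
        obtain ⟨j, hj⟩ := mem_iUnion.mp hx
        exact ⟨j, x, hj, hx'⟩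
      choose φ x hx1 hx2 using h6
      refine ⟨e φ, x, hw2 _ φ rfl (fun i => ?_) fun i _ => hx1 i, fun i _ => hx2 i⟩
      exact (hG4 (φ i) i (Finset.mem_univ _)).resolve_right fun hd' =>
        disjoint_left.mp hd' (h3 _ (hx1 i)) (hW2 i (hx2 i))
    · obtain ⟨x, hx⟩ := (h2 j).2
      exact ⟨x, mem_iUnion.mpr ⟨j, hx⟩, hG3 j (h3 j hx)⟩
  have h1 : ∃ H : ℕ → Set (Set X), (∀ p, Sm b (H p) ∧ ∀ V ∈ H p, ∃ w, P p V w) ∧
      ∀ W, Box W → (∀ i, W i ⊆ R i) → ∃ p, ∃ V ∈ H p, ∀ i, (V ∩ W i).Nonempty := by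
    by_cases hD : ∃ p V, Dense V ∧ ∃ w, P p V w
    · obtain ⟨p, V, hV, hw⟩ := hD
      refine ⟨fun p' => if p' = p then {V} else ∅, fun p' => ?_, fun W hW _ =>
        ⟨p, V, by simp, fun i => ?_⟩⟩
      · by_cases hp : p' = p
        · simp only [if_pos hp]
          exact ⟨Sm.sing b V, fun V' hV' => by rw [hV', hp]; exact hw⟩
        · simp only [if_neg hp]
          exact ⟨Sm.emp b, fun V' hV' => absurd hV' (notMem_empty _)⟩
      · rw [inter_comm]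
        exact hV.inter_open_nonempty _ (hW i).1 (hW i).2
    · obtain ⟨H, hH1, hH2⟩ := h (fun p => {V | IsOpen V ∧ ∃ w, P p V w}) fun p =>
        dom_of (fun V hV => ⟨hV.1, fun hV' => hD ⟨p, V, hV', hV.2⟩⟩) (claim p)
      refine ⟨H, fun p => ⟨(hH1 p).1, fun V hV => ((hH1 p).2 hV).2⟩, fun W hW _ => ?_⟩
      obtain ⟨V, hV, hV'⟩ := hH2.ex hW
      obtain ⟨p, hp⟩ := mem_iUnion.mp hV
      exact ⟨p, V, hp, hV'⟩
  obtain ⟨H, hH1, hH2⟩ := h1
  have h2 : ∀ p V, ∃ w, V ∈ H p → P p V w := fun p V => by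
    by_cases hV : V ∈ H p
    · obtain ⟨w, hw⟩ := (hH1 p).2 V hV
      exact ⟨w, fun _ => hw⟩
    · exact ⟨fun n => (hne n).choose, fun h => absurd h hV⟩
  choose w hw using h2
  refine ⟨fun n => (fun V => w (Nat.unpair n).1 V (Nat.unpair n).2) '' H (Nat.unpair n).1,
    fun n => ⟨(hH1 _).1.img _, ?_⟩, fun W hW hW' => ?_⟩
  · rintro _ ⟨V, hV, rfl⟩
    simpa using (hw _ V hV).1 (Nat.unpair n).2
  · obtain ⟨p, V, hV, hV'⟩ := hH2 W hW hW'
    obtain ⟨q, hq⟩ := (hw p V hV).2 W hW hW' hV'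
    exact ⟨Nat.pair p q, w p V q, ⟨V, by simpa using hV, by simp⟩, hq⟩

theorem ccc {b : Bool} (h : SS b X) {ι : Type} [Finite ι] {R : ι → Set X} (hR : Box R)
    (hg : Good R) (A : Set (ι → Set X)) (h1 : ∀ a ∈ A, Box a ∧ ∀ i, a i ⊆ R i)
    (h2 : A.Pairwise fun a c => ∃ i, Disjoint (a i) (c i)) : A.Countable := by
  obtain ⟨F, hF1, hF2⟩ := loc h hR hg (fun a : ι → Set X => univ.pi a)
    (fun _ => A ∪ {c | ∀ a ∈ A, Disjoint (univ.pi a) (univ.pi c)}) (by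
      intro n W hW _
      by_cases hx : ∃ a ∈ A, (univ.pi a ∩ univ.pi W).Nonempty
      · obtain ⟨a, ha, x, hx, hx'⟩ := hx
        exact ⟨a, Or.inl ha, fun i => a i ∩ W i, fun i => ⟨((h1 a ha).1 i).1.inter (hW i).1,
          x i, hx i trivial, hx' i trivial⟩, fun i => inter_subset_right,
          pi_mono fun i _ => inter_subset_left⟩
      · refine ⟨W, Or.inr fun a ha => ?_, W, hW, fun _ => Subset.rfl, Subset.rfl⟩
        exact disjoint_iff_inter_eq_empty.mpr (not_nonempty_iff_eq_empty.mp fun h => hx ⟨a, ha, h⟩))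
  refine (countable_iUnion fun n => (hF1 n).1.cnt).mono fun a ha => ?_
  obtain ⟨n, c, hc, x, hx, hx'⟩ := hF2 a (h1 a ha).1 (h1 a ha).2
  rcases (hF1 n).2 hc with h3 | h3
  · by_cases hac : a = c
    · exact mem_iUnion.mpr ⟨n, hac ▸ hc⟩
    · obtain ⟨i, hi⟩ := h2 ha h3 hac
      exact absurd (hx i trivial) (disjoint_left.mp hi (hx' i trivial))
  · exact absurd hx (disjoint_left.mp (h3 a ha) hx')

theorem ccc1 {b : Bool} (h : SS b X) (A : Set (Set X)) (h1 : ∀ a ∈ A, IsOpen a ∧ a.Nonempty)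
    (h2 : A.Pairwise Disjoint) : A.Countable := by
  rcases A.eq_empty_or_nonempty with rfl | ⟨a0, ha0⟩
  · exact countable_empty
  obtain ⟨x0, _⟩ := (h1 a0 ha0).2
  have h3 := ccc h (ι := Unit) (R := fun _ => univ) (fun _ => ⟨isOpen_univ, x0, trivial⟩)
    (fun i j hij => absurd rfl hij) ((fun a _ => a) '' A) (by
      rintro _ ⟨a, ha, rfl⟩
      exact ⟨fun _ => h1 a ha, fun _ => subset_univ _⟩) (by
      rintro _ ⟨a, ha, rfl⟩ _ ⟨c, hc, rfl⟩ hac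
      exact ⟨(), h2 ha hc fun h => hac (by rw [h])⟩)
  exact countable_of_injective_of_countable_image (fun a _ c _ h => congrFun h ()) h3

end Pool.Agent.H.MP_9098dd_gt
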