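import Mathlib
import Pool.Agent.H.MP_9098dd_gt.A

set_option autoImplicit false

namespace Pool.Agent.H.MP_9098dd_gt

open Set

universe u

variable {X : Type u} [TopologicalSpace X]

/-- nowhere irreducible sets. -/
def NI (W : Set X) : Prop := ∀ I, IsOpen I → I.Nonempty → I ⊆ W → ¬ IsPreirreducible I

/-- tree families of regular open sets. -/
def TF (𝒯 : Set (Set X)) : Prop :=
  (∀ s ∈ 𝒯, s.Nonempty ∧ interior (closure s) = s ∧ NI s) ∧
    (∀ s ∈ 𝒯, ∀ t ∈ 𝒯, s ⊆ t ∨ t ⊆ s ∨ Disjoint s t) ∧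
    ∀ f : ℕ → Set X, (∀ n, f n ∈ 𝒯) → ¬ ∀ n, f n ⊂ f (n + 1)

theorem exists_TF : ∃ m : Set (Set X), TF m ∧ ∀ v : Set X, v.Nonempty → interior (closure v) = v →
    NI v → (∀ s ∈ m, v ⊆ s ∨ Disjoint s v) → v ∈ m := by
  obtain ⟨⟨m, hm⟩, hmax⟩ := exists_maximal_of_chains_bounded
    (r := fun a c : {𝒯 : Set (Set X) // TF 𝒯} => a.1 ⊆ c.1 ∧ ∀ s ∈ c.1, ∀ t ∈ a.1, t ⊆ s → s ∈ a.1)
    (fun c hc => by
      have key : ∀ a ∈ c, ∀ a' ∈ c, ∀ s ∈ a'.1, ∀ t ∈ a.1, t ⊆ s → s ∈ a.1 := by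
        intro a ha a' ha' s hs t ht hts
        by_cases h : a = a'
        · exact h ▸ hs
        · rcases hc ha ha' h with h1 | h1
          · exact h1.2 s hs t ht hts
          · exact h1.1 hs
      refine ⟨⟨⋃ a ∈ c, a.1, fun s hs => ?_, fun s hs t ht => ?_, fun f hf hf' => ?_⟩,
        fun a ha => ⟨subset_biUnion_of_mem (u := fun a : {𝒯 : Set (Set X) // TF 𝒯} => a.1) ha,
          fun s hs t ht hts => ?_⟩⟩
      · obtain ⟨a, _, ha⟩ := mem_iUnion₂.mp hs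
        exact a.2.1 s ha
      · obtain ⟨a, ha, hs'⟩ := mem_iUnion₂.mp hs
        obtain ⟨a', ha', ht'⟩ := mem_iUnion₂.mp ht
        by_cases h : a = a'
        · exact a.2.2.1 s hs' t (h ▸ ht')
        · rcases hc ha ha' h with h1 | h1
          · exact a'.2.2.1 s (h1.1 hs') t ht'
          · exact a.2.2.1 s hs' t (h1.1 ht')
      · obtain ⟨a, ha, h0⟩ := mem_iUnion₂.mp (hf 0)
        refine a.2.2.2 f (fun n => ?_) hf'
        obtain ⟨a', ha', hn⟩ := mem_iUnion₂.mp (hf n)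
        exact key a ha a' ha' _ hn _ h0
          ((strictMono_nat_of_lt_succ (f := f) hf').monotone (Nat.zero_le n))
      · obtain ⟨a', ha', hs'⟩ := mem_iUnion₂.mp hs
        exact key a ha a' ha' s hs' t ht hts)
    (fun {a c d} h1 h2 => ⟨h1.1.trans h2.1, fun s hs t ht hts =>
      h1.2 s (h2.2 s hs t (h1.1 ht) hts) t ht hts⟩)
  refine ⟨m, hm, fun v h1 h2 h3 h4 => ?_⟩
  have h5 : ∀ s ∈ m, s ⊆ v → s = v := fun s hs hsv => (h4 s hs).elim (Subset.antisymm hsv)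
    fun hd => by
      obtain ⟨x, hx⟩ := (hm.1 s hs).1
      exact absurd (hsv hx) (disjoint_left.mp hd hx)
  have h6 : TF (insert v m) := by
    refine ⟨?_, ?_, fun f hf hf' => hm.2.2 (fun n => f (n + 2)) (fun n => ?_) fun n => hf' _⟩
    · rintro s (rfl | hs)
      · exact ⟨h1, h2, h3⟩
      · exact hm.1 s hs
    · rintro s (rfl | hs) t (rfl | ht)
      · exact Or.inl Subset.rfl
      · exact (h4 t ht).imp id fun h => Or.inr h.symm
      · exact Or.inr (h4 s hs)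
      · exact hm.2.1 s hs t ht
    · rcases hf (n + 2) with h | h
      · rcases hf (n + 1) with h' | h'
        · exact absurd (h'.trans h.symm) (hf' (n + 1)).ne
        · exact absurd ((h5 _ h' (h ▸ (hf' (n + 1)).subset)).trans h.symm) (hf' (n + 1)).ne
      · exact h
  refine (hmax ⟨_, h6⟩ ⟨subset_insert _ _, ?_⟩).1 (mem_insert _ _)
  rintro s (rfl | hs) t ht hts
  · exact h5 t ht hts ▸ ht
  · exact hs

theorem reg_facts {W s : Set X} (hW : IsOpen W) (hs : interior (closure s) = s) (h : W ⊆ s) :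
    W ⊆ interior (closure W) ∧ interior (closure W) ⊆ s ∧
      interior (closure (interior (closure W))) = interior (closure W) ∧
      ∀ r, IsOpen r → Disjoint r W → Disjoint r (interior (closure W)) :=
  ⟨hW.subset_interior_iff.mpr subset_closure, hs ▸ interior_mono (closure_mono (hs.symm ▸ h)),
    interior_closure_idem, fun _ hr hd => (hd.closure_right hr).mono_right interior_subset⟩

theorem gap {s r : Set X} (hs : interior (closure s) = s) (hr : interior (closure r) = r)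
    (h : ¬ s ⊆ r) : IsOpen (s \ closure r) ∧ (s \ closure r).Nonempty := by
  have h0 : IsOpen s := hs ▸ isOpen_interior
  refine ⟨h0.sdiff isClosed_closure, ?_⟩
  by_contra hn
  rw [not_nonempty_iff_eq_empty, sdiff_eq_empty] at hn
  exact h (hr ▸ h0.subset_interior_iff.mpr hn)

theorem tree {b : Bool} (h : SS b X)
    (H : ∀ ℛ : Set (Set X), ℛ.Countable → (∀ P ∈ ℛ, IsOpen P) →
      ∃ W, IsOpen W ∧ W.Nonempty ∧ NI W ∧ ∀ P ∈ ℛ, W ⊆ closure P ∨ Disjoint W P) :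
    ∃ (T : Type u) (_ : PartialOrder T), FreeSuslin T := by
  classical
  obtain ⟨m, hm, hmax⟩ := exists_TF (X := X)
  have hop : ∀ s ∈ m, IsOpen s := fun s hs => (hm.1 s hs).2.1 ▸ isOpen_interior
  have hwf : WellFounded fun s t : m => t.1 ⊂ s.1 :=
    wellFounded_iff_isEmpty_descending_chain.mpr
      ⟨fun f => hm.2.2 (fun n => (f.1 n).1) (fun n => (f.1 n).2) f.2⟩
  have hsplit : ∀ t ∈ m, ∃ a ∈ m, ∃ c ∈ m, a ⊆ t ∧ c ⊆ t ∧ Disjoint a c := by
    intro t ht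
    by_contra hn
    obtain ⟨h1, h2, h3⟩ := hm.1 t ht
    by_cases hA : ∃ r : m, r.1 ⊂ t
    · obtain ⟨r, hr, hr'⟩ := hwf.has_min {r : m | r.1 ⊂ t} hA
      obtain ⟨h4, h5⟩ := gap h2 (hm.1 _ r.2).2.1 hr.2
      obtain ⟨h6, h7, h8, h9⟩ := reg_facts h4 h2 sdiff_subset
      have h10 := h9 r.1 (hop _ r.2) (disjoint_sdiff_right.mono_left subset_closure)
      refine hn ⟨r.1, r.2, _, hmax _ (h5.mono h6) h8 (fun I i1 i2 i3 => h3 I i1 i2 (i3.trans h7))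
        fun s hs => ?_, hr.1, h7, h10⟩
      rcases hm.2.1 s hs t ht with h11 | h11 | h11
      · rcases h11.eq_or_ssubset with h12 | h12
        · exact Or.inl (h12 ▸ h7)
        · refine Or.inr (h10.mono_left ?_)
          rcases hm.2.1 s hs r.1 r.2 with h13 | h13 | h13
          · exact h13
          · by_contra h14
            exact hr' ⟨s, hs⟩ h12 ⟨h13, h14⟩
          · exact absurd ⟨s, hs, r.1, r.2, h11, hr.1, h13⟩ hn
      · exact Or.inl (h7.trans h11)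
      · exact Or.inr (h11.mono_right h7)
    · have h4 := h3 t (hop t ht) h1 Subset.rfl
      simp only [IsPreirreducible, not_forall] at h4
      obtain ⟨v, w, hv, hw, h5, h6, h7⟩ := h4
      obtain ⟨h8, h9, h10, h11⟩ := reg_facts ((hop t ht).inter hv) h2 inter_subset_left
      have h12 := h11 (t ∩ w) ((hop t ht).inter hw) (disjoint_left.mpr fun x hx hx' =>
        h7 ⟨x, hx.1, hx'.2, hx.2⟩)
      refine hA ⟨⟨_, hmax _ (h5.mono h8) h10 (fun I i1 i2 i3 => h3 I i1 i2 (i3.trans h9))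
        fun s hs => ?_⟩, h9, fun h13 => ?_⟩
      · rcases hm.2.1 s hs t ht with h13 | h13 | h13
        · rcases h13.eq_or_ssubset with h14 | h14
          · exact Or.inl (h14 ▸ h9)
          · exact absurd ⟨⟨s, hs⟩, h14⟩ hA
        · exact Or.inl (h9.trans h13)
        · exact Or.inr (h13.mono_right h9)
      · obtain ⟨x, hx⟩ := h6
        exact disjoint_left.mp h12 hx (h13 hx.1)
  have hdis : ∀ s t : mᵒᵈ, ¬ s ≤ t → ¬ t ≤ s →
      Disjoint (OrderDual.ofDual s).1 (OrderDual.ofDual t).1 := fun s t h1 h2 =>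
    ((hm.2.1 _ (OrderDual.ofDual s).2 _ (OrderDual.ofDual t).2).resolve_left h2).resolve_left h1
  have hbox : ∀ s : mᵒᵈ, IsOpen (OrderDual.ofDual s).1 ∧ (OrderDual.ofDual s).1.Nonempty :=
    fun s => ⟨hop _ (OrderDual.ofDual s).2, (hm.1 _ (OrderDual.ofDual s).2).1⟩
  refine ⟨mᵒᵈ, inferInstance, ⟨hwf⟩, fun t s hs s' hs' _ => ?_, ?_, fun C hC => ?_,
    fun A hA => ?_, fun n t ht A hA hA' => ?_⟩
  · by_contra hn
    rw [not_or] at hn
    obtain ⟨x, hx⟩ := (hbox t).2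
    exact disjoint_left.mp (hdis s s' hn.1 hn.2) (hs hx) (hs' hx)
  · refine ⟨fun hc => ?_⟩
    obtain ⟨W, h1, h2, h3, h4⟩ := H m hc hop
    obtain ⟨h5, _, h6, h7⟩ := reg_facts h1 (s := univ) (by simp) (subset_univ _)
    have h8 : ∀ s ∈ m, interior (closure W) ⊆ s ∨ Disjoint s (interior (closure W)) := by
      intro s hs
      refine (h4 s hs).imp (fun h => ?_) fun h => h7 s (hop s hs) h.symm
      rw [← (hm.1 s hs).2.1]
      exact interior_mono (closure_minimal h isClosed_closure)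
    obtain ⟨a, ha, c, hc', h9, h10, h11⟩ := hsplit _ (hmax _ (h2.mono h5) h6
      (fun I i1 i2 i3 i4 => h3 (I ∩ W) (i1.inter h1) (by
        obtain ⟨x, hx⟩ := i2
        exact mem_closure_iff.mp (interior_subset (i3 hx)) I i1 hx) inter_subset_right
        (i4.open_subset (i1.inter h1) inter_subset_left)) h8)
    obtain ⟨x, hx⟩ := (hm.1 a ha).1
    rcases h8 c hc' with h12 | h12
    · exact disjoint_left.mp h11 hx (h12 (h9 hx))
    · obtain ⟨y, hy⟩ := (hm.1 c hc').1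
      exact disjoint_left.mp h12 hy (h10 hy)
  · have h1 : ∀ s : mᵒᵈ, ∃ v : Set X, IsOpen v ∧ v.Nonempty ∧ v ⊆ (OrderDual.ofDual s).1 ∧
        ∀ r ∈ C, s < r → Disjoint v (OrderDual.ofDual r).1 := by
      intro s
      by_cases hA : ∃ r : m, OrderDual.toDual r ∈ C ∧ r.1 ⊂ (OrderDual.ofDual s).1
      · obtain ⟨r, hr, hr'⟩ := hwf.has_min _ hA
        obtain ⟨h4, h5⟩ := gap (hm.1 _ (OrderDual.ofDual s).2).2.1 (hm.1 _ r.2).2.1 hr.2.2
        refine ⟨_, h4, h5, sdiff_subset, fun r' h6 h7 => disjoint_sdiff_left.mono_right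
          (Subset.trans ?_ subset_closure)⟩
        rcases hC.total h6 hr.1 with h8 | h8
        · by_contra h9
          exact hr' (OrderDual.ofDual r') ⟨h6, h7⟩ ⟨h8, h9⟩
        · exact h8
      · exact ⟨_, (hbox s).1, (hbox s).2, Subset.rfl, fun r hr hr' =>
          absurd ⟨OrderDual.ofDual r, hr, hr'⟩ hA⟩
    choose v h2 h3 h4 h5 using h1
    have h6 : ∀ s ∈ C, ∀ s' ∈ C, s ≠ s' → Disjoint (v s) (v s') := by
      intro s hs s' hs' hne
      rcases hC hs hs' hne with h | h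
      · exact (h5 s s' hs' (lt_of_le_of_ne h hne)).mono_right (h4 s')
      · exact ((h5 s' s hs (lt_of_le_of_ne h hne.symm)).mono_right (h4 s)).symm
    refine countable_of_injective_of_countable_image (f := v) (fun s hs s' hs' he => ?_)
      (ccc1 h _ ?_ ?_)
    · by_contra hne
      obtain ⟨x, hx⟩ := h3 s
      exact disjoint_left.mp (h6 s hs s' hs' hne) hx (he ▸ hx)
    · rintro _ ⟨s, _, rfl⟩
      exact ⟨h2 s, h3 s⟩
    · rintro _ ⟨s, hs, rfl⟩ _ ⟨s', hs', rfl⟩ hne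
      exact h6 s hs s' hs' fun he => hne (by rw [he])
  · refine countable_of_injective_of_countable_image (f := fun s : mᵒᵈ => (OrderDual.ofDual s).1)
      (fun s _ s' _ he => Subtype.ext he) (ccc1 h _ ?_ ?_)
    · rintro _ ⟨s, _, rfl⟩
      exact hbox s
    · rintro _ ⟨s, hs, rfl⟩ _ ⟨s', hs', rfl⟩ hne
      have h1 : s ≠ s' := fun he => hne (by rw [he])
      exact hdis s s' (hA hs hs' h1) (hA hs' hs h1.symm)
  · refine countable_of_injective_of_countable_image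
      (f := fun (a : Fin n → mᵒᵈ) i => (OrderDual.ofDual (a i)).1)
      (fun a _ a' _ he => funext fun i => Subtype.ext (congrFun he i))
      (ccc h (R := fun i => (OrderDual.ofDual (t i)).1) (fun i => hbox _)
        (fun i j hij => Or.inl (hdis _ _ (ht hij) (ht hij.symm))) _ ?_ ?_)
    · rintro _ ⟨a, ha, rfl⟩
      exact ⟨fun i => hbox _, fun i => hA a ha i⟩
    · rintro _ ⟨a, ha, rfl⟩ _ ⟨a', ha', rfl⟩ hne
      obtain ⟨i, h1, h2⟩ := hA' ha ha' fun he => hne (by rw [he])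
      exact ⟨i, hdis _ _ h1 h2⟩

theorem sep {b : Bool} (h : SS b X) {ℛ : Set (Set X)} (h1 : ℛ.Countable) (h2 : ∀ P ∈ ℛ, IsOpen P)
    (h3 : ∀ W, IsOpen W → W.Nonempty → NI W → ∃ P ∈ ℛ, ¬ W ⊆ closure P ∧ ¬ Disjoint W P) :
    ∃ 𝒬 : Set (Set X), 𝒬.Countable ∧ (∀ Q ∈ 𝒬, IsOpen Q) ∧
      ∀ W W', IsOpen W → W.Nonempty → IsOpen W' → W'.Nonempty → ∃ Q ∈ 𝒬, ∃ Q' ∈ 𝒬,
        (W ∩ Q).Nonempty ∧ (W' ∩ Q').Nonempty ∧ (Disjoint Q Q' ∨ IsPreirreducible Q) := by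
  let M : Set X → Set X := fun I => ⋃₀ {J | IsOpen J ∧ IsPreirreducible J ∧ (J ∩ I).Nonempty}
  let ℳ : Set (Set X) := M '' {I | IsOpen I ∧ I.Nonempty ∧ IsPreirreducible I}
  have hMo : ∀ I, IsOpen (M I) := fun I => isOpen_sUnion fun J hJ => hJ.1
  have hMi : ∀ I, IsOpen I → IsPreirreducible I → IsPreirreducible (M I) := by
    rintro I hI hI' v w hv hw ⟨x, ⟨J, hJ, hx⟩, hx'⟩ ⟨y, ⟨K, hK, hy⟩, hy'⟩
    obtain ⟨z, _, hz⟩ := hJ.2.1 v I hv hI ⟨x, hx, hx'⟩ hJ.2.2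
    obtain ⟨z', _, hz'⟩ := hK.2.1 w I hw hI ⟨y, hy, hy'⟩ hK.2.2
    obtain ⟨a, ha, ha'⟩ := hI' v w hv hw ⟨z, hz.2, hz.1⟩ ⟨z', hz'.2, hz'.1⟩
    exact ⟨a, ⟨I, ⟨hI, hI', a, ha, ha⟩, ha⟩, ha'⟩
  have hMs : ∀ I, IsOpen I → I.Nonempty → IsPreirreducible I → I ⊆ M I := fun I i1 i2 i3 =>
    subset_sUnion_of_mem ⟨i1, i3, by simpa using i2⟩
  have hMle : ∀ I K, IsOpen I → IsPreirreducible I → IsOpen K → K.Nonempty → IsPreirreducible K →
      (M I ∩ M K).Nonempty → M I ⊆ M K := by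
    intro I K i1 i2 k1 k2 k3 hx
    refine subset_sUnion_of_mem ⟨hMo I, hMi I i1 i2, ?_⟩
    obtain ⟨z, _, hz⟩ := hMi K k1 k3 (M I) K (hMo I) k1 (inter_comm _ _ ▸ hx)
      (k2.mono fun x hx => ⟨hMs K k1 k2 k3 hx, hx⟩)
    exact ⟨z, hz⟩
  have hc : ℳ.Countable := ccc1 h ℳ (by
      rintro _ ⟨I, hI, rfl⟩
      exact ⟨hMo I, hI.2.1.mono (hMs I hI.1 hI.2.1 hI.2.2)⟩) (by
      rintro _ ⟨I, hI, rfl⟩ _ ⟨K, hK, rfl⟩ hne
      by_contra hd
      rw [not_disjoint_iff_nonempty_inter] at hd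
      exact hne (Subset.antisymm (hMle I K hI.1 hI.2.2 hK.1 hK.2.1 hK.2.2 hd)
        (hMle K I hK.1 hK.2.2 hI.1 hI.2.1 hI.2.2 (inter_comm _ _ ▸ hd))))
  refine ⟨insert univ (ℳ ∪ (ℛ ∪ (fun P => (closure P)ᶜ) '' ℛ)),
    (hc.union (h1.union (h1.image _))).insert _, ?_, fun W W' w1 w2 w3 w4 => ?_⟩
  · rintro Q (rfl | ⟨I, _, rfl⟩ | hQ | ⟨P, _, rfl⟩)
    · exact isOpen_univ
    · exact hMo I
    · exact h2 Q hQ
    · exact isClosed_closure.isOpen_compl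
  · by_cases hW : NI W
    · obtain ⟨P, hP, h4, h5⟩ := h3 W w1 w2 hW
      rw [not_disjoint_iff_nonempty_inter] at h5
      obtain ⟨x, hx, hx'⟩ := not_subset.mp h4
      by_cases h6 : (W' ∩ P).Nonempty
      · exact ⟨(closure P)ᶜ, Or.inr (Or.inr (Or.inr ⟨P, hP, rfl⟩)), P, Or.inr (Or.inr (Or.inl hP)),
          ⟨x, hx, hx'⟩, h6, Or.inl (disjoint_compl_left.mono_right subset_closure)⟩
      · obtain ⟨y, hy⟩ := w4
        exact ⟨P, Or.inr (Or.inr (Or.inl hP)), (closure P)ᶜ, Or.inr (Or.inr (Or.inr ⟨P, hP, rfl⟩)),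
          h5, ⟨y, hy, fun hy' => h6 (mem_closure_iff.mp hy' W' w3 hy)⟩,
          Or.inl (disjoint_compl_right.mono_left subset_closure)⟩
    · simp only [NI, not_forall, not_not] at hW
      obtain ⟨I, i1, i2, i3, i4⟩ := hW
      exact ⟨M I, Or.inr (Or.inl ⟨I, ⟨i1, i2, i4⟩, rfl⟩), univ, Or.inl rfl,
        i2.mono fun x hx => ⟨i3 hx, hMs I i1 i2 i4 hx⟩, by simpa using w4, Or.inr (hMi I i1 i4)⟩

theorem conf {b : Bool} (h : SS b X) (hT : ¬ ∃ (T : Type u) (_ : PartialOrder T), FreeSuslin T)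
    (ι : Type) [Finite ι] : ∃ Γ : Set (ι → Set X), Γ.Countable ∧ (∀ R ∈ Γ, Box R ∧ Good R) ∧
      ∀ W : ι → Set X, Box W → ∃ R ∈ Γ, ∀ i, (W i ∩ R i).Nonempty := by
  classical
  have := Fintype.ofFinite ι
  have h0 := mt (tree h) hT
  simp only [not_forall, not_exists, not_and, not_or] at h0
  obtain ⟨ℛ, h1, h2, h3⟩ := h0
  obtain ⟨𝒬, h4, h5, h6⟩ := sep h h1 h2 fun W w1 w2 w3 => by
    obtain ⟨P, hP, h7⟩ := h3 W w1 w2 w3
    exact ⟨P, hP, h7⟩
  let 𝒮 : Set (Set X) := sInter '' {t | t.Finite ∧ t ⊆ 𝒬}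
  have h7 : 𝒮.Countable := (countable_ofPred_finite_subset h4).image _
  have h8 : ∀ s ∈ 𝒮, IsOpen s := by
    rintro _ ⟨t, ht, rfl⟩
    exact ht.1.isOpen_sInter fun v hv => h5 v (ht.2 hv)
  have h9 : ∀ s ∈ 𝒮, ∀ Q ∈ 𝒬, s ∩ Q ∈ 𝒮 := by
    rintro _ ⟨t, ht, rfl⟩ Q hQ
    exact ⟨insert Q t, ⟨ht.1.insert Q, insert_subset hQ ht.2⟩, by rw [sInter_insert, inter_comm]⟩
  refine ⟨{R | (∀ i, R i ∈ 𝒮) ∧ Box R ∧ Good R}, (countable_pi fun _ => h7).mono fun R hR => hR.1,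
    fun R hR => hR.2, fun W hW => ?_⟩
  have key : ∀ S : Finset (ι × ι), ∃ R : ι → Set X, (∀ i, R i ∈ 𝒮) ∧ (∀ i, (W i ∩ R i).Nonempty) ∧
      ∀ p ∈ S, p.1 ≠ p.2 → Disjoint (R p.1) (R p.2) ∨ IsPreirreducible (R p.1) := by
    intro S
    induction S using Finset.induction_on with
    | empty => exact ⟨fun _ => univ, fun _ => ⟨∅, ⟨finite_empty, empty_subset _⟩, sInter_empty⟩,
        fun i => by simpa using (hW i).2, fun p hp => by simp at hp⟩
    | insert p S _ ih =>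
      obtain ⟨R, r1, r2, r3⟩ := ih
      by_cases hp : p.1 = p.2
      · refine ⟨R, r1, r2, fun q hq hq' => ?_⟩
        rcases Finset.mem_insert.mp hq with rfl | hq
        · exact absurd hp hq'
        · exact r3 q hq hq'
      obtain ⟨Q, hQ, Q', hQ', q1, q2, q3⟩ := h6 _ _ ((hW p.1).1.inter (h8 _ (r1 p.1))) (r2 p.1)
        ((hW p.2).1.inter (h8 _ (r1 p.2))) (r2 p.2)
      let R' : ι → Set X := fun i => if i = p.1 then R i ∩ Q else if i = p.2 then R i ∩ Q' else R i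
      have e1 : R' p.1 = R p.1 ∩ Q := if_pos rfl
      have e2 : R' p.2 = R p.2 ∩ Q' := by simp only [R', if_neg (Ne.symm hp), if_true]
      have e3 : ∀ i, i ≠ p.1 → i ≠ p.2 → R' i = R i := fun i i1 i2 => by
        simp only [R', if_neg i1, if_neg i2]
      have e4 : ∀ i, R' i ∈ 𝒮 ∧ (W i ∩ R' i).Nonempty ∧ R' i ⊆ R i := by
        intro i
        by_cases i1 : i = p.1
        · rw [i1, e1]
          exact ⟨h9 _ (r1 _) Q hQ, inter_assoc _ _ _ ▸ q1, inter_subset_left⟩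
        · by_cases i2 : i = p.2
          · rw [i2, e2]
            exact ⟨h9 _ (r1 _) Q' hQ', inter_assoc _ _ _ ▸ q2, inter_subset_left⟩
          · rw [e3 i i1 i2]
            exact ⟨r1 i, r2 i, Subset.rfl⟩
      refine ⟨R', fun i => (e4 i).1, fun i => (e4 i).2.1, fun q hq hq' => ?_⟩
      rcases Finset.mem_insert.mp hq with rfl | hq
      · refine q3.imp (fun hd => ?_) fun hi => hi.open_subset (h8 _ (e4 _).1) ?_
        · rw [e1, e2]
          exact hd.mono inter_subset_right inter_subset_right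
        · rw [e1]
          exact inter_subset_right
      · exact (r3 q hq hq').imp (fun hd => hd.mono (e4 _).2.2 (e4 _).2.2)
          fun hi => hi.open_subset (h8 _ (e4 _).1) (e4 _).2.2
  obtain ⟨R, r1, r2, r3⟩ := key Finset.univ
  exact ⟨R, ⟨r1, fun i => ⟨h8 _ (r1 i), (r2 i).mono inter_subset_right⟩,
    fun i j hij => r3 (i, j) (Finset.mem_univ _) hij⟩, r2⟩

theorem glob {b : Bool} (h : SS b X) (hT : ¬ ∃ (T : Type u) (_ : PartialOrder T), FreeSuslin T)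
    {ι : Type} [Finite ι] {A : Type u} (E : A → Set (ι → X)) (𝒰 : ℕ → Set A)
    (hd : ∀ n W, Box W → ∃ a ∈ 𝒰 n, ∃ V, Box V ∧ (∀ i, V i ⊆ W i) ∧ univ.pi V ⊆ E a) :
    ∃ F : ℕ → Set A, (∀ n, Sm b (F n) ∧ F n ⊆ 𝒰 n) ∧
      ∀ W, Box W → ∃ n, ∃ a ∈ F n, (E a ∩ univ.pi W).Nonempty := by
  obtain ⟨Γ, h1, h2, h3⟩ := conf h hT ι
  rcases Γ.eq_empty_or_nonempty with rfl | hne
  · refine ⟨fun _ => ∅, fun n => ⟨Sm.emp b, empty_subset _⟩, fun W hW => ?_⟩
    obtain ⟨R, hR, _⟩ := h3 W hW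
    exact absurd hR (notMem_empty R)
  obtain ⟨g, rfl⟩ := h1.exists_eq_range hne
  choose F hF1 hF2 using fun p => loc h (h2 _ ⟨p, rfl⟩).1 (h2 _ ⟨p, rfl⟩).2 E
    (fun q => 𝒰 (Nat.pair p q)) fun n W hW _ => hd _ W hW
  refine ⟨fun n => F (Nat.unpair n).1 (Nat.unpair n).2, fun n => ⟨(hF1 _ _).1, ?_⟩, fun W hW => ?_⟩
  · simpa using (hF1 (Nat.unpair n).1 (Nat.unpair n).2).2
  · obtain ⟨_, ⟨p, rfl⟩, hp⟩ := h3 W hW
    obtain ⟨q, a, ha, x, hx, hx'⟩ := hF2 p (fun i => W i ∩ g p i)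
      (fun i => ⟨(hW i).1.inter ((h2 _ ⟨p, rfl⟩).1 i).1, hp i⟩) fun i => inter_subset_right
    exact ⟨Nat.pair p q, a, by simpa using ha, x, hx, fun i hi => (hx' i hi).1⟩

theorem sub_box {k : ℕ} {U : Set (Fin k → X)} (h1 : IsOpen U) (h2 : U.Nonempty) :
    ∃ V : Fin k → Set X, Box V ∧ univ.pi V ⊆ U := by
  obtain ⟨x, hx⟩ := h2
  obtain ⟨V, h3, h4⟩ := isOpen_pi_iff'.mp h1 x hx
  exact ⟨V, fun i => ⟨(h3 i).1, x i, (h3 i).2⟩, h4⟩

theorem power {b : Bool} (h : SS b X) (hT : ¬ ∃ (T : Type u) (_ : PartialOrder T), FreeSuslin T)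
    (k : ℕ) : SS b (Fin k → X) := by
  intro 𝒰 h𝒰
  choose F hF1 hF2 using fun m : ℕ => glob h hT (ι := Fin m × Fin k)
    (fun U : Set (Fin k → X) => {z | ∀ l, (fun j => z (l, j)) ∈ U}) (fun q => 𝒰 (Nat.pair m q)) (by
      intro n W hW
      have h1 : Box fun l : Fin m => univ.pi fun j => W (l, j) := fun l =>
        ⟨isOpen_set_pi finite_univ fun j _ => (hW _).1, univ_pi_nonempty_iff.mpr fun j => (hW _).2⟩
      obtain ⟨U, hU, h2⟩ := (h𝒰 (Nat.pair m n)).ex h1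
      choose V hV1 hV2 using fun l => sub_box (((h𝒰 _).1 U hU).inter (h1 l).1) (h2 l)
      refine ⟨U, hU, fun p => V p.1 p.2 ∩ W p, fun p => ⟨(hV1 _ _).1.inter (hW p).1, ?_⟩,
        fun p => inter_subset_right, fun z hz l => (hV2 l fun j _ => (hz (l, j) trivial).1).1⟩
      obtain ⟨x, hx⟩ := univ_pi_nonempty_iff.mpr fun j => (hV1 p.1 j).2
      exact ⟨x p.2, hx p.2 trivial, (hV2 p.1 hx).2 p.2 trivial⟩)
  have h1 : ∀ n, F (Nat.unpair n).1 (Nat.unpair n).2 ⊆ 𝒰 n := fun n => by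
    simpa using (hF1 (Nat.unpair n).1 (Nat.unpair n).2).2
  refine ⟨fun n => F (Nat.unpair n).1 (Nat.unpair n).2, fun n => ⟨(hF1 _ _).1, h1 n⟩,
    dom_of (fun U hU => ?_) fun r W hW => ?_⟩
  · obtain ⟨n, hn⟩ := mem_iUnion.mp hU
    exact ⟨(h𝒰 n).1 U (h1 n hn), (h𝒰 n).2.2.1 U (h1 n hn)⟩
  · choose V hV1 hV2 using fun l => sub_box (hW l).1 (hW l).2
    obtain ⟨q, U, hU, z, hz, hz'⟩ := hF2 r (fun p => V p.1 p.2) fun p => hV1 _ _
    exact ⟨U, mem_iUnion.mpr ⟨Nat.pair r q, by simpa using hU⟩,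
      fun l => ⟨_, hz l, hV2 l fun j _ => hz' (l, j) trivial⟩⟩

end Pool.Agent.H.MP_9098dd_gt
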