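import Mathlib
import Pool.Agent.H.MP_9098dd_gt.B

set_option autoImplicit false

namespace Pool.Agent.H.MP_9098dd_gt

open Set

universe u

theorem prune {T : Type u} [PartialOrder T] (h : FreeSuslin T) :
    ∃ (S : Type u) (_ : PartialOrder S), FreeSuslin S ∧ ∀ t : S, ¬ (Ici t).Countable := by
  obtain ⟨h1, h2, h3, h4, h5, h6⟩ := h
  have key : ∀ D : Set T, {s | s ∈ D ∧ ¬ (Ici s).Countable}.Countable → D.Countable := by
    intro D hD
    have h7 := h5 {l | (Ici l).Countable ∧ ∀ s, s < l → ¬ (Ici s).Countable}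
      fun a ha c hc hne hle => hc.2 a (lt_of_le_of_ne hle hne) ha.1
    refine (hD.union (h7.biUnion (t := fun l _ => Ici l) fun l hl => hl.1)).mono fun x hx => ?_
    by_cases h8 : (Ici x).Countable
    · obtain ⟨l, hl, hl'⟩ := h1.wf.has_min {l | l ≤ x ∧ (Ici l).Countable} ⟨x, le_rfl, h8⟩
      exact Or.inr (mem_iUnion₂.mpr ⟨l, ⟨hl.2, fun s hs hs' => hl' s ⟨hs.le.trans hl.1, hs'⟩ hs⟩, hl.1⟩)
    · exact Or.inl ⟨hx, h8⟩
  refine ⟨{t : T // ¬ (Ici t).Countable}, inferInstance, ⟨inferInstance, fun t a ha c hc hne =>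
    h2 t.1 ha hc fun he => hne (Subtype.ext he), ⟨fun hc => ?_⟩, fun C hC => ?_, fun A hA => ?_,
    fun n t ht A hA hA' => ?_⟩, fun t ht => t.2 (key _ ((ht.image Subtype.val).mono ?_))⟩
  · exact not_countable_univ (key univ (Set.Countable.mono (fun s hs => by exact ⟨⟨s, hs.2⟩, rfl⟩)
      (countable_range (Subtype.val : {t : T // ¬ (Ici t).Countable} → T))))
  · refine countable_of_injective_of_countable_image Subtype.val_injective.injOn (h4 _ ?_)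
    rintro _ ⟨a, ha, rfl⟩ _ ⟨c, hc, rfl⟩ hne
    exact hC ha hc fun he => hne (by rw [he])
  · refine countable_of_injective_of_countable_image Subtype.val_injective.injOn (h5 _ ?_)
    rintro _ ⟨a, ha, rfl⟩ _ ⟨c, hc, rfl⟩ hne
    exact hA ha hc fun he => hne (by rw [he])
  · refine countable_of_injective_of_countable_image (f := fun a i => (a i).1)
      (fun a _ c _ he => funext fun i => Subtype.ext (congrFun he i))
      (h6 n (fun i => (t i).1) ht _ ?_ ?_)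
    · rintro _ ⟨a, ha, rfl⟩
      exact hA a ha
    · rintro _ ⟨a, ha, rfl⟩ _ ⟨c, hc, rfl⟩ hne
      exact hA' ha hc fun he => hne (by rw [he])
  · exact fun s hs => ⟨⟨s, hs.2⟩, hs.1, rfl⟩

theorem mx {α : Type u} (D : Set α) (r : α → α → Prop) (hr : ∀ a c, r a c → r c a) :
    ∃ A ⊆ D, A.Pairwise r ∧ ∀ d ∈ D, ∃ a ∈ A, a = d ∨ ¬ r a d := by
  obtain ⟨A, hA⟩ := zorn_subset {A | A ⊆ D ∧ A.Pairwise r} fun c hc hc' =>
    ⟨⋃₀ c, ⟨sUnion_subset fun s hs => (hc hs).1,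
      (pairwise_sUnion hc'.directedOn).mpr fun s hs => (hc hs).2⟩, fun s hs => subset_sUnion_of_mem hs⟩
  refine ⟨A, hA.prop.1, hA.prop.2, fun d hd => ?_⟩
  by_contra hn
  push Not at hn
  have h1 : insert d A ∈ {A | A ⊆ D ∧ A.Pairwise r} := ⟨insert_subset hd hA.prop.1,
    hA.prop.2.insert fun a ha _ => ⟨hr _ _ (hn a ha).2, (hn a ha).2⟩⟩
  exact (hn d (hA.le_of_ge h1 (subset_insert _ _) (mem_insert _ _))).1 rfl

theorem clos {α : Type u} (φ : (m : ℕ) → (Fin m → α) → Set α) (hφ : ∀ m t, (φ m t).Countable) :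
    ∃ C : Set α, C.Countable ∧ ∀ m t, (∀ i, t i ∈ C) → φ m t ⊆ C := by
  obtain ⟨C, h0, h1⟩ : ∃ C : ℕ → Set α, C 0 = ∅ ∧
      ∀ k, C (k + 1) = C k ∪ ⋃ m, ⋃ t ∈ {t : Fin m → α | ∀ i, t i ∈ C k}, φ m t :=
    ⟨fun k => Nat.rec ∅ (fun _ D => D ∪ ⋃ m, ⋃ t ∈ {t : Fin m → α | ∀ i, t i ∈ D}, φ m t) k,
      rfl, fun _ => rfl⟩
  have h2 : Monotone C := monotone_nat_of_le_succ fun k => by rw [h1]; exact subset_union_left
  refine ⟨⋃ k, C k, countable_iUnion fun k => ?_, fun m t ht => ?_⟩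
  · induction k with
    | zero => rw [h0]; exact countable_empty
    | succ k ih =>
      rw [h1]
      exact ih.union (countable_iUnion fun m => (countable_pi fun _ => ih).biUnion fun t _ => hφ m t)
  · choose k hk using fun i => mem_iUnion.mp (ht i)
    refine Subset.trans ?_ (subset_iUnion _ (Finset.univ.sup k + 1))
    rw [h1]
    exact fun x hx => Or.inr (mem_iUnion.mpr ⟨m, mem_iUnion₂.mpr ⟨t, fun i =>
      h2 (Finset.le_sup (f := k) (Finset.mem_univ i)) (hk i), hx⟩⟩)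

theorem tree_SS {T : Type u} [PartialOrder T] (h : FreeSuslin T) (hp : ∀ t : T, ¬ (Ici t).Countable)
    (b : Bool) : @SS b T (Topology.upperSet T) := by
  classical
  let _ := Topology.upperSet T
  obtain ⟨h1, h2, h3, h4, h5, h6⟩ := h
  have hop : ∀ s : Set T, IsOpen s ↔ IsUpperSet s := fun _ => Iff.rfl
  intro 𝒰 h𝒰
  have s2 : ∀ (n m : ℕ) (t : Fin m → T), ∃ A : Set (Fin m → T), A.Countable ∧
      ((Pairwise fun i j => ¬ t i ≤ t j) → ∀ s, t ≤ s → ∃ a ∈ A, (∃ U ∈ 𝒰 n, ∀ i, a i ∈ U) ∧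
        ∀ i, a i ≤ s i ∨ s i ≤ a i) := by
    intro n m t
    by_cases ht : Pairwise fun i j => ¬ t i ≤ t j
    · obtain ⟨A, a1, a2, a3⟩ := mx {a : Fin m → T | t ≤ a ∧ ∃ U ∈ 𝒰 n, ∀ i, a i ∈ U}
        (fun a c => ∃ i, ¬ a i ≤ c i ∧ ¬ c i ≤ a i) fun a c ⟨i, h, h'⟩ => ⟨i, h', h⟩
      refine ⟨A, h6 m t ht A (fun a ha => (a1 ha).1) a2, fun _ s hs => ?_⟩
      obtain ⟨U, hU, hU'⟩ := (h𝒰 n).ex (W := fun i => Ici (s i))
        fun i => ⟨isUpperSet_Ici _, nonempty_Ici⟩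
      choose d hd1 hd2 using hU'
      obtain ⟨a, ha, ha'⟩ := a3 d ⟨hs.trans hd2, U, hU, hd1⟩
      refine ⟨a, ha, (a1 ha).2, fun i => ?_⟩
      have h7 : a i ≤ d i ∨ d i ≤ a i := by
        rcases ha' with rfl | ha'
        · exact Or.inl le_rfl
        · by_contra hn
          rw [not_or] at hn
          exact ha' ⟨i, hn⟩
      rcases h7 with h7 | h7
      · exact (h2 (d i)).total h7 (hd2 i)
      · exact Or.inr ((hd2 i).trans h7)
    · exact ⟨∅, countable_empty, fun h => absurd h ht⟩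
  choose A hA1 hA2 using s2
  have s3 : ∀ P : Set T, {x | Iio x = P}.Countable := fun P => h5 _ fun x hx y hy hne hle => by
    have h7 : x ∈ Iio y := lt_of_le_of_ne hle hne
    rw [hy, ← hx] at h7
    exact lt_irrefl x h7
  have s4 : ∀ c : T, {x | Iio x ⊆ Iic c}.Countable := by
    intro c
    refine ((s3 (Iic c)).union ((h4 _ (h2 c)).biUnion fun d _ => s3 (Iio d))).mono fun x hx => ?_
    by_cases h7 : (Iic c \ Iio x).Nonempty
    · obtain ⟨d, hd, hd'⟩ := h1.wf.has_min _ h7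
      refine Or.inr (mem_iUnion₂.mpr ⟨d, hd.1, Set.ext fun y => ⟨fun hy => ?_, fun hy => ?_⟩⟩)
      · rcases (h2 c).total (hx hy) hd.1 with h8 | h8
        · exact lt_of_le_of_ne h8 fun he => hd.2 (he ▸ hy)
        · exact absurd (h8.trans_lt hy) hd.2
      · by_contra hn
        exact hd' y ⟨hy.le.trans hd.1, hn⟩ hy
    · rw [not_nonempty_iff_eq_empty, sdiff_eq_empty] at h7
      exact Or.inl (Subset.antisymm hx h7)
  obtain ⟨x0⟩ : Nonempty T := inferInstance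
  obtain ⟨C, c1, c2⟩ := clos (fun m t => insert x0 ((⋃ n, ⋃ a ∈ A n m t, range a) ∪
      ⋃ i, {x | Iio x ⊆ Iic (t i)})) fun m t => ((countable_iUnion fun n => (hA1 n m t).biUnion
        fun a _ => countable_range a).union (countable_iUnion fun i => s4 _)).insert x0
  have c3 : x0 ∈ C := c2 0 Fin.elim0 (fun i => i.elim0) (mem_insert _ _)
  have c4 : ∀ x c, c ∈ C → Iio x ⊆ Iic c → x ∈ C := fun x c hc hx =>
    c2 1 (fun _ => c) (fun _ => hc) (Or.inr (Or.inr (mem_iUnion.mpr ⟨0, hx⟩)))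
  have s5 : ∀ n (S : Set T), S.Finite → S ⊆ {l | l ∉ C ∧ Iio l ⊆ C} → ∃ U ∈ 𝒰 n, S ⊆ U := by
    intro n S hS hS'
    obtain ⟨m, P, hP, hP'⟩ := (hS.image Iio).fin_param
    have h7 : ∀ i, ∃ l ∈ S, Iio l = P i := fun i => by
      have : P i ∈ Iio '' S := hP' ▸ mem_range_self i
      exact this
    choose l hl1 hl2 using h7
    have h8 : ∀ i, ∃ c, c < l i ∧ ∀ j, j ≠ i → ¬ c < l j := by
      intro i
      have h9 : ∀ J : Finset (Fin m), ∃ c, c < l i ∧ ∀ j ∈ J, j ≠ i → ¬ c < l j := by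
        intro J
        induction J using Finset.induction_on with
        | empty =>
          by_contra hn
          exact (hS' (hl1 i)).1 (c4 _ x0 c3 fun y hy => absurd ⟨y, hy, by simp⟩ hn)
        | insert j J _ ih =>
          obtain ⟨c, hc, hc'⟩ := ih
          by_cases hj : j = i
          · refine ⟨c, hc, fun j' h h' => hc' j' ?_ h'⟩
            exact (Finset.mem_insert.mp h).resolve_left fun he => h' (he.trans hj)
          have h10 : ∃ d, d < l i ∧ ¬ d < l j := by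
            by_contra hn
            push Not at hn
            have h11 : ¬ Iio (l j) ⊆ Iio (l i) := fun h => hj (hP (by
              rw [← hl2, ← hl2]; exact Subset.antisymm h hn))
            obtain ⟨d, hd, hd'⟩ := not_subset.mp h11
            refine (hS' (hl1 i)).1 (c4 _ d ((hS' (hl1 j)).2 hd) fun y hy => ?_)
            exact ((h2 (l j)).total (hn y hy).le hd.le).resolve_right fun h => hd' (h.trans_lt hy)
          obtain ⟨d, hd, hd'⟩ := h10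
          rcases (h2 (l i)).total hc.le hd.le with h | h
          · refine ⟨d, hd, fun j' h11 h12 h13 => ?_⟩
            rcases Finset.mem_insert.mp h11 with rfl | h11
            · exact hd' h13
            · exact hc' j' h11 h12 (h.trans_lt h13)
          · refine ⟨c, hc, fun j' h11 h12 h13 => ?_⟩
            rcases Finset.mem_insert.mp h11 with rfl | h11
            · exact hd' (h.trans_lt h13)
            · exact hc' j' h11 h12 h13
      obtain ⟨c, hc, hc'⟩ := h9 Finset.univ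
      exact ⟨c, hc, fun j hj => hc' j (Finset.mem_univ j) hj⟩
    choose t ht1 ht2 using h8
    obtain ⟨a, ha, ⟨U, hU, hU'⟩, ha'⟩ := hA2 n m t
      (fun i j hij h => ht2 i j hij.symm (h.trans_lt (ht1 j))) l fun i => (ht1 i).le
    refine ⟨U, hU, fun x hx => ?_⟩
    obtain ⟨i, hi⟩ : Iio x ∈ range P := hP' ▸ mem_image_of_mem _ hx
    have h9 : a i ∈ C := c2 m t (fun i => (hS' (hl1 i)).2 (ht1 i))
      (Or.inr (Or.inl (mem_iUnion.mpr ⟨n, mem_iUnion₂.mpr ⟨a, ha, i, rfl⟩⟩)))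
    have h10 : ¬ l i ≤ a i := fun h => (hS' (hl1 i)).1 (c4 _ _ h9 fun y hy => hy.le.trans h)
    have h11 : a i ∈ Iio (l i) := lt_of_le_not_ge ((ha' i).resolve_right h10) h10
    rw [hl2, hi] at h11
    exact (hop U).mp ((h𝒰 n).1 U hU) h11.le (hU' i)
  have s6 : {l | l ∉ C ∧ Iio l ⊆ C}.Countable :=
    h5 _ fun x hx y hy hne hle => hx.1 (hy.2 (lt_of_le_of_ne hle hne))
  obtain ⟨g, hg⟩ := (countable_ofPred_finite_subset s6).exists_eq_range
    ⟨∅, finite_empty, empty_subset _⟩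
  have s7 : ∀ n, (g n).Finite ∧ g n ⊆ {l | l ∉ C ∧ Iio l ⊆ C} := fun n => by
    have : g n ∈ range g := mem_range_self n
    rwa [← hg] at this
  choose U hU1 hU2 using fun n => s5 n (g n) (s7 n).1 (s7 n).2
  refine ⟨fun n => {U n}, fun n => ⟨Sm.sing b _, singleton_subset_iff.mpr (hU1 n)⟩,
    dom_of (fun V hV => ?_) fun r W hW => ?_⟩
  · obtain ⟨n, rfl⟩ := mem_iUnion.mp hV
    exact ⟨(h𝒰 n).1 _ (hU1 n), (h𝒰 n).2.2.1 _ (hU1 n)⟩
  · have h7 : ∀ j, ∃ l y, (l ∉ C ∧ Iio l ⊆ C) ∧ l ≤ y ∧ y ∈ W j := by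
      intro j
      obtain ⟨x, hx⟩ := (hW j).2
      obtain ⟨y, hy, hy'⟩ := not_subset.mp fun h => hp x (c1.mono h)
      obtain ⟨l, hl, hl'⟩ := h1.wf.has_min {l | l ≤ y ∧ l ∉ C} ⟨y, le_rfl, hy'⟩
      refine ⟨l, y, ⟨hl.2, fun z hz => ?_⟩, hl.1, (hop _).mp (hW j).1 hy hx⟩
      by_contra hn
      exact hl' z ⟨hz.le.trans hl.1, hn⟩ hz
    choose l y h8 h9 h10 using h7
    obtain ⟨n, hn⟩ : range l ∈ range g := hg ▸ ⟨finite_range l, range_subset_iff.mpr h8⟩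
    exact ⟨U n, mem_iUnion.mpr ⟨n, rfl⟩, fun j => ⟨y j, (hop _).mp ((h𝒰 n).1 _ (hU1 n)) (h9 j)
      (hU2 n (hn ▸ mem_range_self j)), h10 j⟩⟩

theorem tree_not {T : Type u} [PartialOrder T] (h : FreeSuslin T) (hp : ∀ t : T, ¬ (Ici t).Countable)
    (b : Bool) : letI := Topology.upperSet T; ¬ SS b (Fin 2 → T) := by
  classical
  let _ := Topology.upperSet T
  obtain ⟨h1, h2, h3, h4, h5, h6⟩ := h
  have hop : ∀ s : Set T, IsOpen s ↔ IsUpperSet s := fun _ => Iff.rfl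
  have ho : ∀ a : Fin 2 → T, IsOpen (Ici a) := fun a => by
    rw [← pi_univ_Ici]
    exact isOpen_set_pi finite_univ fun i _ => isUpperSet_Ici _
  have key : ∀ K : Set (Fin 2 → T), K.Countable → (∀ a ∈ K, ¬ a 0 ≤ a 1 ∧ ¬ a 1 ≤ a 0) →
      ¬ Dense (⋃ a ∈ K, Ici a) := by
    intro K hK hK' hd
    obtain ⟨t, _, ht⟩ := not_subset.mp fun h : (univ : Set T) ⊆ ⋃ a ∈ K, ⋃ i, Iic (a i) =>
      not_countable_univ ((hK.biUnion fun a _ => countable_iUnion fun i => h4 _ (h2 _)).mono h)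
    obtain ⟨z, hz, hz'⟩ := hd.inter_open_nonempty _ (ho fun _ => t) nonempty_Ici
    obtain ⟨a, ha, ha'⟩ := mem_iUnion₂.mp hz'
    have h7 : ∀ i, a i ≤ t := fun i => ((h2 (z i)).total (ha' i) (hz i)).resolve_right fun h =>
      ht (mem_iUnion₂.mpr ⟨a, ha, mem_iUnion.mpr ⟨i, h⟩⟩)
    exact ((h2 t).total (h7 0) (h7 1)).elim (hK' a ha).1 (hK' a ha).2
  have split : ∀ x y : T, ∃ a c, x ≤ a ∧ y ≤ c ∧ ¬ a ≤ c ∧ ¬ c ≤ a := by
    have h7 : ∀ t : T, ∃ a c, t ≤ a ∧ t ≤ c ∧ ¬ a ≤ c ∧ ¬ c ≤ a := fun t => by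
      by_contra hn
      refine hp t (h4 _ fun a ha c hc _ => ?_)
      by_contra hn'
      rw [not_or] at hn'
      exact hn ⟨a, c, ha, hc, hn'⟩
    intro x y
    by_cases h8 : x ≤ y
    · obtain ⟨a, c, h9, h10⟩ := h7 y
      exact ⟨a, c, h8.trans h9, h10⟩
    · by_cases h9 : y ≤ x
      · obtain ⟨a, c, h10, h11, h12⟩ := h7 x
        exact ⟨a, c, h10, h9.trans h11, h12⟩
      · exact ⟨x, y, le_rfl, le_rfl, h8, h9⟩
  intro hS
  obtain ⟨F, hF1, hF2⟩ := hS (fun _ => {U | ∃ K : Set (Fin 2 → T), K.Finite ∧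
      (∀ a ∈ K, ¬ a 0 ≤ a 1 ∧ ¬ a 1 ≤ a 0) ∧ U = ⋃ a ∈ K, Ici a}) fun _ => dom_of (by
      rintro _ ⟨K, k1, k2, rfl⟩
      exact ⟨isOpen_biUnion fun a _ => ho a, key K k1.countable k2⟩) (by
      intro r W hW
      have h7 : ∀ j, ∃ a ∈ W j, ¬ a 0 ≤ a 1 ∧ ¬ a 1 ≤ a 0 := by
        intro j
        obtain ⟨V, hV, hV'⟩ := sub_box (hW j).1 (hW j).2
        obtain ⟨x, hx⟩ := (hV 0).2
        obtain ⟨y, hy⟩ := (hV 1).2
        obtain ⟨a, c, h8, h9, h10⟩ := split x y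
        refine ⟨![a, c], hV' fun i _ => ?_, h10⟩
        fin_cases i
        · exact (hop _).mp (hV 0).1 h8 hx
        · exact (hop _).mp (hV 1).1 h9 hy
      choose a h8 h9 using h7
      exact ⟨_, ⟨range a, finite_range a, by rintro _ ⟨j, rfl⟩; exact h9 j, rfl⟩,
        fun j => ⟨a j, mem_iUnion₂.mpr ⟨a j, ⟨j, rfl⟩, self_mem_Ici⟩, h8 j⟩⟩)
  have h7 : ∀ U : Set (Fin 2 → T), ∃ K : Set (Fin 2 → T), K.Finite ∧
      (∀ a ∈ K, ¬ a 0 ≤ a 1 ∧ ¬ a 1 ≤ a 0) ∧ (U ∈ ⋃ n, F n → U = ⋃ a ∈ K, Ici a) := by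
    intro U
    by_cases hU : U ∈ ⋃ n, F n
    · obtain ⟨n, hn⟩ := mem_iUnion.mp hU
      obtain ⟨K, k1, k2, k3⟩ := (hF1 n).2 hn
      exact ⟨K, k1, k2, fun _ => k3⟩
    · exact ⟨∅, finite_empty, by simp, fun h => absurd h hU⟩
  choose K k1 k2 k3 using h7
  refine key (⋃ U ∈ ⋃ n, F n, K U) ((countable_iUnion fun n => (hF1 n).1.cnt).biUnion
    fun U _ => (k1 U).countable) (fun a ha => ?_) (hF2.2.1.mono ?_)
  · obtain ⟨U, _, hU⟩ := mem_iUnion₂.mp ha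
    exact k2 U a hU
  · rintro z ⟨U, hU, hz⟩
    rw [k3 U hU] at hz
    obtain ⟨a, ha, ha'⟩ := mem_iUnion₂.mp hz
    exact mem_iUnion₂.mpr ⟨a, mem_iUnion₂.mpr ⟨U, hU, ha⟩, ha'⟩

theorem main (b : Bool) :
    (∀ (X : Type u) [TopologicalSpace X], SS b X → ∀ k : ℕ, 1 ≤ k → SS b (Fin k → X)) ↔
      ¬ ∃ (T : Type u) (_ : PartialOrder T), FreeSuslin T := by
  refine ⟨fun h ⟨T, _, hT⟩ => ?_, fun hT X _ h k _ => power h hT k⟩
  obtain ⟨S, _, h1, h2⟩ := prune hT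
  exact tree_not h1 h2 b (@h S (Topology.upperSet S) (tree_SS h1 h2 b) 2 (by omega))

end Pool.Agent.H.MP_9098dd_gt
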